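import Pool.Agent.Lib.MP_d01072_ag.CL.All

/-!
MP_d01072_ag: Comon's conjecture for the general points of all secant varieties of the Veronese
varieties `V^n_d`, for all types `(d_1, …, d_p)` (the classical tensor rank included), for all `n` and
all `d ≥ D(n)`.
-/

set_option autoImplicit false

namespace Pool.Agent.Results.MP_d01072_ag.ComonLargeDegree

open Pool.Agent.Lib.MP_d01072_ag

/-- For every `n ≥ 1` there is a number `D` such that for all `d ≥ D`, all distributions `c` of the `d`
slots to groups and all `h ≥ 1` there is a form `Q`, not vanishing identically on `sec_h` of the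
Veronese variety, such that every point `T` of `sec_h` with `Q(T) ≠ 0` has Segre-Veronese rank equal
to its symmetric rank. -/
theorem result (n : ℕ) (hn : 1 ≤ n) :
    ∃ D : ℕ, ∀ (d p : ℕ) (c : Fin d → Fin p) (h : ℕ), D ≤ d → 1 ≤ h →
      ∃ (e : ℕ) (Q : MvPolynomial (Fin d → Fin (n + 1)) ℂ), Q.IsHomogeneous e ∧
        (∃ T ∈ sec n d h, MvPolynomial.eval T Q ≠ 0) ∧
        ∀ T ∈ sec n d h, MvPolynomial.eval T Q ≠ 0 → rk c T = srk T :=
  CL.all_Fnl n hn

end Pool.Agent.Results.MP_d01072_ag.ComonLargeDegree
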