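import Pool.Agent.Lib.MP_d01072_ag.Main

/-!
MP_d01072_ag: Comon's conjecture for the general points of the `h`-th secant variety of the
Veronese variety, for every `h` with `(h - 1) (n + 1) < ∏ C(m_k + d_k, d_k)` for some
`m_1 + … + m_p = n`.
-/

set_option autoImplicit false

namespace Pool.Agent.Results.MP_d01072_ag.GeneralPoints

open Pool.Agent.Lib.MP_d01072_ag

/-- Let `c` distribute the `d ≥ 1` slots to `p` groups, the group `k` having `d_k` slots, let
`m_1 + … + m_p = n` and `(h - 1) (n + 1) < ∏ C(m_k + d_k, d_k)`. Then there is a form `Q`, not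
vanishing identically on `sec_h` of the Veronese variety, such that every point `T` of `sec_h` with
`Q(T) ≠ 0` has Segre-Veronese rank `h` and symmetric rank `h`. -/
theorem result {n d p : ℕ} (hd : 0 < d) (c : Fin d → Fin p) (m : Fin p → ℕ) (hm : ∑ k, m k = n)
    (h : ℕ) (hh : 1 ≤ h)
    (hr : (h - 1) * (n + 1) < ∏ k, (m k + size c k).choose (size c k)) :
    ∃ (e : ℕ) (Q : MvPolynomial (Fin d → Fin (n + 1)) ℂ), Q.IsHomogeneous e ∧
      (∃ T ∈ sec n d h, MvPolynomial.eval T Q ≠ 0) ∧
      ∀ T ∈ sec n d h, MvPolynomial.eval T Q ≠ 0 → rk c T = h ∧ srk T = h :=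
  comon_general hd c m hm h hh hr

end Pool.Agent.Results.MP_d01072_ag.GeneralPoints
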