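import Pool.Agent.Lib.MP_d01072_ag.Tf.All

/-!
MP_d01072_ag: Comon's conjecture for the general points of all secant varieties of the Veronese
surfaces (forms in three variables, degree `d ≥ 5`), for all types `(d_1, …, d_p)` with a part
`d_k ≥ 2 d / 3`; every `h ≥ 1`, the generic rank included.
-/

set_option autoImplicit false

namespace Pool.Agent.Results.MP_d01072_ag.TernaryLargePart

open Pool.Agent.Lib.MP_d01072_ag

/-- Let `c` distribute the `d ≥ 5` slots to `p` groups, one of the groups having at least `2 d / 3`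
slots, and let `h ≥ 1`. Then there is a form `Q`, not vanishing identically on `sec_h` of the
Veronese surface, such that every point `T` of `sec_h` with `Q(T) ≠ 0` has Segre-Veronese rank and
symmetric rank equal to the smaller of `h` and `⌈(d + 1) (d + 2) / 6⌉`. -/
theorem result {d p : ℕ} (hd : 5 ≤ d) (c : Fin d → Fin p) (κ : Fin p)
    (hκ : 2 * d ≤ 3 * size c κ) (h : ℕ) (hh : 1 ≤ h) :
    ∃ (e : ℕ) (Q : MvPolynomial (Fin d → Fin 3) ℂ), Q.IsHomogeneous e ∧
      (∃ T ∈ sec 2 d h, MvPolynomial.eval T Q ≠ 0) ∧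
      ∀ T ∈ sec 2 d h, MvPolynomial.eval T Q ≠ 0 →
        rk c T = (min h (((d + 2).choose 2 + 2) / 3) : ℕ) ∧
        srk T = (min h (((d + 2).choose 2 + 2) / 3) : ℕ) :=
  Tf.all_Final d p c κ h hd hκ hh

end Pool.Agent.Results.MP_d01072_ag.TernaryLargePart
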